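import Pool.Agent.Q253.CP.Stm
import Pool.Agent.Q162.HV.GR

/-! Project CP, job GR: square integrability of the function of a set of characters implies the
Riemann hypothesis for each of them. -/

set_option autoImplicit false

namespace Pool.Agent.Q257.CP

open MeasureTheory Filter Topology Set Complex
open Pool.Agent.Q253.HV Pool.Agent.Q253.LQ Pool.Agent.Q253.CP
open DirichletCharacter (LFunction)
open Pool.Agent.Q162.HV (abs_int nt tm ti lap_diff exp_change right)

section

variable {q : ℕ} [NeZero q]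

open Classical in
/-- the `L`-function without its pole -/
noncomputable def L1 (χ : DirichletCharacter ℂ q) : ℂ → ℂ :=
  if χ = 1 then DirichletCharacter.LFunctionTrivChar₁ q else LFunction χ

open Classical in
theorem L1_diff (χ : DirichletCharacter ℂ q) : Differentiable ℂ (L1 χ) := by
  unfold L1
  split_ifs with h
  · exact DirichletCharacter.differentiable_LFunctionTrivChar₁ q
  · exact DirichletCharacter.differentiable_LFunction h

open Classical in
theorem L1_one (χ : DirichletCharacter ℂ q) : L1 χ 1 ≠ 0 := by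
  unfold L1
  split_ifs with h
  · exact DirichletCharacter.LFunctionTrivChar₁_apply_one_ne_zero q
  · exact DirichletCharacter.LFunction_apply_one_ne_zero h

open Classical in
theorem L1_eq (χ : DirichletCharacter ℂ q) {s : ℂ} (hs : s ≠ 1) :
    L1 χ s = (if χ = 1 then s - 1 else 1) * LFunction χ s := by
  unfold L1
  split_ifs with h
  · subst h
    rw [DirichletCharacter.LFunctionTrivChar₁, Function.update_of_ne hs]
  · rw [one_mul]

open Classical in
theorem L1_ld (χ : DirichletCharacter ℂ q) {s : ℂ} (hs : s ≠ 1) (h0 : LFunction χ s ≠ 0) :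
    logDeriv (L1 χ) s = logDeriv (LFunction χ) s + (if χ = 1 then 1 / (s - 1) else 0) := by
  have hs1 : s - 1 ≠ 0 := sub_ne_zero.2 hs
  unfold L1
  split_ifs with h
  · subst h
    rw [logDeriv_apply, DirichletCharacter.deriv_LFunctionTrivChar₁_apply_of_ne_one q hs,
      DirichletCharacter.LFunctionTrivChar₁, Function.update_of_ne hs, logDeriv_apply]
    have h1 : DirichletCharacter.LFunctionTrivChar q s ≠ 0 := h0
    have h2 : LFunction (1 : DirichletCharacter ℂ q) = DirichletCharacter.LFunctionTrivChar q := rfl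
    rw [h2]
    field_simp
  · rw [add_zero]

theorem L1_right (χ : DirichletCharacter ℂ q) {s : ℂ} (hs : 1 < s.re) : L1 χ s ≠ 0 := by
  have hs1 : s ≠ 1 := by rintro rfl; simp at hs
  rw [L1_eq χ hs1]
  refine mul_ne_zero ?_ (DirichletCharacter.LFunction_ne_zero_of_one_le_re χ (Or.inr hs1) hs.le)
  split_ifs
  · exact sub_ne_zero.2 hs1
  · exact one_ne_zero

/-- the product -/
noncomputable def PL (X : Finset (DirichletCharacter ℂ q)) (s : ℂ) : ℂ := ∏ χ ∈ X, L1 χ s

theorem PL_diff (X : Finset (DirichletCharacter ℂ q)) : Differentiable ℂ (PL X) := by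
  unfold PL
  intro s
  exact DifferentiableAt.fun_finsetProd fun χ _ => L1_diff χ s

theorem PL_one (X : Finset (DirichletCharacter ℂ q)) : PL X 1 ≠ 0 :=
  Finset.prod_ne_zero_iff.2 fun χ _ => L1_one χ

open Classical in
theorem PL_ld (X : Finset (DirichletCharacter ℂ q)) {s : ℂ} (hs : s ≠ 1)
    (h0 : ∀ χ ∈ X, LFunction χ s ≠ 0) :
    logDeriv (PL X) s = (∑ χ ∈ X, logDeriv (LFunction χ) s) +
      (if (1 : DirichletCharacter ℂ q) ∈ X then 1 / (s - 1) else 0) := by
  have h1 : ∀ χ ∈ X, L1 χ s ≠ 0 := by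
    intro χ hχ
    rw [L1_eq χ hs]
    refine mul_ne_zero ?_ (h0 χ hχ)
    split_ifs
    · exact sub_ne_zero.2 hs
    · exact one_ne_zero
  have h2 : logDeriv (PL X) s = ∑ χ ∈ X, logDeriv (L1 χ) s := by
    have := logDeriv_prod (f := fun χ : DirichletCharacter ℂ q => L1 χ) h1 (fun χ _ => L1_diff χ s)
    exact this
  rw [h2, Finset.sum_congr rfl fun χ hχ => L1_ld χ hs (h0 χ hχ), Finset.sum_add_distrib]
  congr 1
  rw [Finset.sum_ite_eq' X (1 : DirichletCharacter ℂ q) (fun _ => 1 / (s - 1))]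

omit [NeZero q] in
theorem psi_meas (χ : DirichletCharacter ℂ q) : Measurable (fun t : ℝ => psiC χ (Real.exp t)) := by
  have h1 : (fun t : ℝ => psiC χ (Real.exp t)) =
      (fun n : ℕ => ∑ k ∈ Finset.Icc 1 n, ((ArithmeticFunction.vonMangoldt k : ℝ) : ℂ) *
        χ (k : ZMod q)) ∘ (fun t : ℝ => ⌊Real.exp t⌋₊) := rfl
  rw [h1]
  exact (measurable_from_nat).comp (Nat.measurable_floor.comp Real.measurable_exp)

omit [NeZero q] in
theorem psi_le (χ : DirichletCharacter ℂ q) {x : ℝ} (hx : 0 ≤ x) :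
    ‖psiC χ x‖ ≤ (Real.log 4 + 4) * x := by
  refine le_trans ?_ (Chebyshev.psi_le_const_mul_self hx)
  unfold psiC Chebyshev.psi
  refine (norm_sum_le _ _).trans ?_
  have h3 : Finset.Icc 1 ⌊x⌋₊ = Finset.Ioc 0 ⌊x⌋₊ := rfl
  rw [h3]
  refine Finset.sum_le_sum fun k _ => ?_
  rw [norm_mul, Complex.norm_real, Real.norm_of_nonneg ArithmeticFunction.vonMangoldt_nonneg]
  have h4 : (0 : ℝ) ≤ ArithmeticFunction.vonMangoldt k := ArithmeticFunction.vonMangoldt_nonneg
  have h5 := DirichletCharacter.norm_le_one χ (k : ZMod q)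
  nlinarith

omit [NeZero q] in
theorem psi_int (χ : DirichletCharacter ℂ q) {s : ℂ} (hs : 1 < s.re) :
    IntegrableOn (fun t : ℝ => psiC χ (Real.exp t) * cexp (-s * t)) (Ioi 0) := by
  have h2 : IntegrableOn (fun w : ℝ => (Real.log 4 + 4) * Real.exp ((-(s.re - 1)) * w)) (Ioi 0) :=
    (integrableOn_exp_mul_Ioi (by linarith) 0).const_mul _
  refine Integrable.mono' h2 ?_ (Eventually.of_forall fun w => ?_)
  · exact ((psi_meas χ).mul (by fun_prop)).aestronglyMeasurable
  · rw [nt (fun t => psiC χ (Real.exp t)) s w]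
    have h3 := psi_le χ (Real.exp_pos w).le
    calc ‖psiC χ (Real.exp w)‖ * Real.exp (-(s.re * w))
        ≤ (Real.log 4 + 4) * Real.exp w * Real.exp (-(s.re * w)) := by gcongr
      _ = _ := by
        rw [mul_assoc, ← Real.exp_add]
        congr 2
        ring

theorem exp_int {s : ℂ} (hs : 1 < s.re) :
    IntegrableOn (fun t : ℝ => ((Real.exp t : ℝ) : ℂ) * cexp (-s * t)) (Ioi 0) ∧
      ∫ t in Ioi (0 : ℝ), ((Real.exp t : ℝ) : ℂ) * cexp (-s * t) = 1 / (s - 1) := by
  have h1 : ∀ t : ℝ, ((Real.exp t : ℝ) : ℂ) * cexp (-s * t) = cexp ((1 - s) * t) := by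
    intro t
    rw [Complex.ofReal_exp, ← Complex.exp_add]
    congr 1
    ring
  simp_rw [h1]
  have h2 : (1 - s).re < 0 := by simp; linarith
  refine ⟨integrableOn_exp_mul_complex_Ioi h2 0, ?_⟩
  rw [integral_exp_mul_complex_Ioi h2]
  have h3 : s - 1 ≠ 0 := by
    intro h
    have := congrArg Complex.re h
    simp at this
    linarith
  have h4 : 1 - s ≠ 0 := by
    intro h
    apply h3
    linear_combination -h
  rw [div_eq_div_iff h4 h3]
  simp

open Classical in
theorem fX_ld (X : Finset (DirichletCharacter ℂ q)) {s : ℂ} (hs : 1 < s.re) :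
    ld (fX X) s = (∑ χ ∈ X, ld (fun t => psiC χ (Real.exp t)) s) +
      (if (1 : DirichletCharacter ℂ q) ∈ X then s / (s - 1) else 0) := by
  unfold ld lap fX
  have h1 : ∀ t : ℝ, ((∑ χ ∈ X, psiC χ (Real.exp t)) -
      (if (1 : DirichletCharacter ℂ q) ∈ X then ((Real.exp t : ℝ) : ℂ) else 0)) * cexp (-s * t) =
      (∑ χ ∈ X, psiC χ (Real.exp t) * cexp (-s * t)) -
      (if (1 : DirichletCharacter ℂ q) ∈ X then 1 else 0) * (((Real.exp t : ℝ) : ℂ) * cexp (-s * t)) := by
    intro t
    rw [sub_mul, Finset.sum_mul]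
    split_ifs <;> ring
  simp_rw [h1]
  rw [integral_sub (integrable_finsetSum _ fun χ _ => psi_int χ hs) ((exp_int hs).1.const_mul _),
    integral_finsetSum _ fun χ _ => psi_int χ hs, integral_const_mul, (exp_int hs).2, mul_sub,
    Finset.mul_sum]
  split_ifs
  · ring
  · ring

open Classical in
theorem PL_right (X : Finset (DirichletCharacter ℂ q)) {s : ℂ} (hs : 1 < s.re) :
    deriv (PL X) s = (ld (fX X) s - (if (1 : DirichletCharacter ℂ q) ∈ X then 1 else 0)) * PL X s := by
  have hs1 : s ≠ 1 := by rintro rfl; simp at hs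
  have hs2 : s - 1 ≠ 0 := sub_ne_zero.2 hs1
  have h0 : ∀ χ : DirichletCharacter ℂ q, LFunction χ s ≠ 0 := fun χ =>
    DirichletCharacter.LFunction_ne_zero_of_one_le_re χ (Or.inr hs1) hs.le
  have hP : PL X s ≠ 0 := Finset.prod_ne_zero_iff.2 fun χ _ => L1_right χ hs
  have h1 := PL_ld X hs1 (fun χ _ => h0 χ)
  have h2 := fX_ld X hs
  have h3 : ∀ χ : DirichletCharacter ℂ q, logDeriv (LFunction χ) s = ld (fun t => psiC χ (Real.exp t)) s := by
    intro χ
    rw [logDeriv_apply, right χ hs, mul_div_cancel_right₀ _ (h0 χ)]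
  simp_rw [h3] at h1
  rw [logDeriv_apply, div_eq_iff hP] at h1
  rw [h1, h2]
  congr 1
  split_ifs
  · field_simp
    ring
  · ring

open Classical in
theorem PL_all (X : Finset (DirichletCharacter ℂ q)) (h : Adm (fX X)) {s : ℂ} (hs : 1 / 2 < s.re) :
    deriv (PL X) s = (ld (fX X) s - (if (1 : DirichletCharacter ℂ q) ∈ X then 1 else 0)) * PL X s := by
  have hopen : IsOpen {z : ℂ | 1 / 2 < z.re} := isOpen_lt continuous_const Complex.continuous_re
  have hconn : IsPreconnected {z : ℂ | 1 / 2 < z.re} := (convex_halfSpace_re_gt (1 / 2)).isPreconnected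
  have hL : Differentiable ℂ (PL X) := PL_diff X
  have hA1 : AnalyticOnNhd ℂ (deriv (PL X)) {z : ℂ | 1 / 2 < z.re} :=
    DifferentiableOn.analyticOnNhd hL.deriv.differentiableOn hopen
  have hA2 : AnalyticOnNhd ℂ (fun s => (ld (fX X) s - (if (1 : DirichletCharacter ℂ q) ∈ X then 1 else 0)) *
      PL X s) {z : ℂ | 1 / 2 < z.re} := by
    refine DifferentiableOn.analyticOnNhd (fun z hz => DifferentiableAt.differentiableWithinAt ?_) hopen
    exact (((differentiableAt_id.neg).mul (lap_diff h hz)).sub_const _).mul hL.differentiableAt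
  have h2 : (2 : ℂ) ∈ {z : ℂ | 1 / 2 < z.re} := by simp; norm_num
  refine hA1.eqOn_of_preconnected_of_eventuallyEq hA2 hconn h2 ?_ hs
  have h3 : {z : ℂ | 1 < z.re} ∈ 𝓝 (2 : ℂ) :=
    (isOpen_lt continuous_const Complex.continuous_re).mem_nhds (by simp)
  filter_upwards [h3] with z hz
  exact PL_right X hz

open Classical in
theorem PL_ne (X : Finset (DirichletCharacter ℂ q)) (h : Adm (fX X)) {s : ℂ} (hs : 1 / 2 < s.re) :
    PL X s ≠ 0 := by
  intro h0
  have hopen : IsOpen {z : ℂ | 1 / 2 < z.re} := isOpen_lt continuous_const Complex.continuous_re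
  have hL : Differentiable ℂ (PL X) := PL_diff X
  have hA : AnalyticAt ℂ (PL X) s := hL.analyticAt s
  set g : ℂ → ℂ := fun s => ld (fX X) s - (if (1 : DirichletCharacter ℂ q) ∈ X then 1 else 0) with hgd
  have hg : AnalyticAt ℂ g s := by
    refine DifferentiableOn.analyticAt (s := {z : ℂ | 1 / 2 < z.re}) (fun z hz => ?_)
      (hopen.mem_nhds hs)
    exact (((differentiableAt_id.neg).mul (lap_diff h hz)).sub_const _).differentiableWithinAt
  have h1 := hA.analyticOrderAt_deriv_add_one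
  have h2 : (fun z => PL X z - PL X s) = PL X := by
    funext z; rw [h0, sub_zero]
  rw [h2] at h1
  have h3 : deriv (PL X) =ᶠ[𝓝 s] g * PL X := by
    filter_upwards [hopen.mem_nhds hs] with z hz
    exact PL_all X h hz
  rw [analyticOrderAt_congr h3, analyticOrderAt_mul hg hA] at h1
  have h4 : analyticOrderAt (PL X) s = ⊤ := by
    by_contra hne
    obtain ⟨n, hn⟩ := ENat.ne_top_iff_exists.1 hne
    rw [← hn] at h1
    have h5 : (n : ℕ∞) + 1 ≤ n := by
      calc (n : ℕ∞) + 1 ≤ (analyticOrderAt g s + n) + 1 := by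
            gcongr
            exact le_add_self
        _ = n := h1
    have h6 : (n + 1 : ℕ) ≤ n := by exact_mod_cast h5
    omega
  rw [analyticOrderAt_eq_top] at h4
  have h5 : AnalyticOnNhd ℂ (PL X) univ := fun z _ => hL.analyticAt z
  have h6 : EqOn (PL X) 0 univ :=
    h5.eqOn_of_preconnected_of_eventuallyEq analyticOnNhd_const isPreconnected_univ (mem_univ s) h4
  exact PL_one X (h6 (mem_univ (1 : ℂ)))

end

/-- CP-GR -/
theorem t_GR : Pool.Agent.Q253.CP.S_GR := by
  classical
  intro q _ X h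
  have h0 : ∀ χ ∈ X, ∀ s : ℂ, 1 / 2 < s.re → s ≠ 1 → LFunction χ s ≠ 0 := by
    intro χ hχ s hs hs1 h1
    apply PL_ne X h hs
    unfold PL
    refine Finset.prod_eq_zero hχ ?_
    rw [L1_eq χ hs1, h1, mul_zero]
  refine ⟨fun χ hχ s hs hs1 => h0 χ hχ s hs (by rintro rfl; simp at hs1), fun s hs hs1 => ?_⟩
  have h1 := PL_ld X hs1 (fun χ hχ => h0 χ hχ s hs hs1)
  rw [logDeriv_apply, PL_all X h hs, mul_div_cancel_right₀ _ (PL_ne X h hs)] at h1
  have hs2 : s - 1 ≠ 0 := sub_ne_zero.2 hs1
  have h2 : ld (fX X) s = (∑ χ ∈ X, logDeriv (LFunction χ) s) +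
      (if (1 : DirichletCharacter ℂ q) ∈ X then 1 / (s - 1) else 0) +
      (if (1 : DirichletCharacter ℂ q) ∈ X then 1 else 0) := by
    linear_combination h1
  rw [h2, add_assoc]
  congr 1
  split_ifs
  · field_simp
    ring
  · ring

end Pool.Agent.Q257.CP
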