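import Pool.Agent.Q257.CP.Four
import Pool.Agent.Q253.CP.Stm

/-! # Project CP, job KPL -/

set_option autoImplicit false

namespace Pool.Agent.Q257.CP

open MeasureTheory Filter Topology Set Complex FourierTransform
open Pool.Agent.Q253.HV Pool.Agent.Q237.HV Pool.Agent.Q253.CP
open scoped ENNReal ComplexConjugate

/-- `e^(-σt) (f(t+κ) - f(t))` with `f = 0` on `t ≤ 0` -/
noncomputable def ww (f : ℝ → ℂ) (κ σ : ℝ) (t : ℝ) : ℂ :=
  (Real.exp (κ * σ) : ℂ) * uu f σ (t + κ) - uu f σ t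

theorem ww1 {f : ℝ → ℂ} (hf : Adm f) {κ σ : ℝ} (hσ : 1 / 2 < σ) : Integrable (ww f κ σ) :=
  (((uu1 f hf σ hσ).comp_add_right κ).const_mul _).sub (uu1 f hf σ hσ)

theorem uu_shift2 {f : ℝ → ℂ} (hf : Adm f) {κ σ : ℝ} (hσ : 1 / 2 < σ) :
    MemLp (fun t => uu f σ (t + κ)) 2 :=
  (uu2 f hf σ hσ).comp_measurePreserving (measurePreserving_add_right volume κ)

theorem ww2 {f : ℝ → ℂ} (hf : Adm f) {κ σ : ℝ} (hσ : 1 / 2 < σ) : MemLp (ww f κ σ) 2 :=
  ((uu_shift2 hf hσ).const_mul _).sub (uu2 f hf σ hσ)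

theorem four_ww {f : ℝ → ℂ} (hf : Adm f) {κ σ : ℝ} (hσ : 1 / 2 < σ) (ξ : ℝ) :
    𝓕 (ww f κ σ) ξ = ((Real.exp (κ * σ) : ℂ) * cexp ((2 * Real.pi * κ * ξ : ℝ) * I) - 1) *
      𝓕 (uu f σ) ξ := by
  have h1 := uu1 f hf σ hσ
  have h2 : Integrable (fun t => uu f σ (t + κ)) := h1.comp_add_right κ
  have h3 := four_shift (uu f σ) κ ξ
  rw [Real.fourier_real_eq_integral_exp_smul] at h3 ⊢
  unfold ww
  have hi : ∀ w : ℝ → ℂ, Integrable w →
      Integrable (fun x : ℝ => cexp (((-2 * Real.pi * x * ξ : ℝ) : ℂ) * I) • w x) := by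
    intro w hw
    refine Integrable.bdd_mul (c := 1) hw ?_ (ae_of_all _ fun p => ?_)
    · refine Continuous.aestronglyMeasurable ?_
      fun_prop
    · rw [Complex.norm_exp_ofReal_mul_I]
  have e1 : ∀ x : ℝ, cexp (((-2 * Real.pi * x * ξ : ℝ) : ℂ) * I) •
      ((Real.exp (κ * σ) : ℂ) * uu f σ (x + κ) - uu f σ x) =
      (Real.exp (κ * σ) : ℂ) * (cexp (((-2 * Real.pi * x * ξ : ℝ) : ℂ) * I) • uu f σ (x + κ)) -
      cexp (((-2 * Real.pi * x * ξ : ℝ) : ℂ) * I) • uu f σ x := by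
    intro x
    simp only [smul_eq_mul]
    ring
  simp_rw [e1]
  rw [integral_sub ((hi _ h2).const_mul _) (hi _ h1), integral_const_mul, h3,
    ← Real.fourier_real_eq_integral_exp_smul]
  ring

theorem ww_eq {f : ℝ → ℂ} {κ σ t : ℝ} (hκ : 0 < κ) (ht : 0 < t) :
    ww f κ σ t = (f (t + κ) - f t) * cexp (-(σ : ℂ) * t) := by
  unfold ww uu
  rw [indicator_of_mem (mem_Ioi.2 (by linarith : (0 : ℝ) < t + κ)), indicator_of_mem (mem_Ioi.2 ht)]
  have h1 : cexp (-(σ : ℂ) * ((t + κ : ℝ) : ℂ)) = cexp (-(σ : ℂ) * t) * (Real.exp (-(κ * σ)) : ℂ) := by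
    rw [Complex.ofReal_exp, ← Complex.exp_add]
    congr 1
    push_cast
    ring
  rw [h1]
  have h2 : (Real.exp (κ * σ) : ℂ) * (Real.exp (-(κ * σ)) : ℂ) = 1 := by
    rw [← Complex.ofReal_mul, ← Real.exp_add]
    simp
  linear_combination (f (t + κ) * cexp (-(σ : ℂ) * t)) * h2

theorem ww_sq {f : ℝ → ℂ} {κ σ t : ℝ} (hκ : 0 < κ) (ht : 0 < t) :
    ‖ww f κ σ t‖ ^ 2 = ‖f (t + κ) - f t‖ ^ 2 * Real.exp (-(2 * σ * t)) := by
  rw [ww_eq hκ ht, norm_mul, mul_pow, norm_ex, ← Real.exp_nat_mul]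
  congr 2
  push_cast
  ring

theorem ww_int {f : ℝ → ℂ} (hf : Adm f) {κ σ : ℝ} (hσ : 1 / 2 < σ) :
    Integrable (fun t => ‖ww f κ σ t‖ ^ 2) :=
  (memLp_two_iff_integrable_sq_norm (ww2 hf hσ).1).1 (ww2 hf hσ)

theorem ww_total {f : ℝ → ℂ} (hf : Adm f) {B κ σ : ℝ} (hB : 0 ≤ B)
    (hfB : ∀ t, 0 < t → t ≤ 1 → ‖f t‖ ≤ B) (hκ : 0 < κ) (hκ1 : κ ≤ 1) (hσ : 1 / 2 < σ)
    (hσ1 : σ ≤ 1) :
    |(∫ t, ‖ww f κ σ t‖ ^ 2) -
      ∫ t in Ioi (0 : ℝ), ‖f (t + κ) - f t‖ ^ 2 * Real.exp (-(2 * σ * t))| ≤ 9 * B ^ 2 * κ := by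
  have hint := ww_int (κ := κ) hf hσ
  have h1 : ∫ t in Ioi (0 : ℝ), ‖f (t + κ) - f t‖ ^ 2 * Real.exp (-(2 * σ * t)) =
      ∫ t in Ioi (0 : ℝ), ‖ww f κ σ t‖ ^ 2 := by
    refine setIntegral_congr_fun measurableSet_Ioi fun t ht => ?_
    exact (ww_sq hκ (mem_Ioi.1 ht)).symm
  rw [h1]
  have h2 := integral_add_compl (measurableSet_Ioi (a := (0 : ℝ))) hint
  rw [← h2, add_sub_cancel_left, compl_Ioi]
  have hexp : Real.exp (κ * σ) ≤ 3 := by
    calc Real.exp (κ * σ) ≤ Real.exp 1 := Real.exp_le_exp.2 (by nlinarith)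
      _ ≤ 3 := Real.exp_one_lt_d9.le.trans (by norm_num)
  have h3 : ∀ t ∈ Iic (0 : ℝ), ‖ww f κ σ t‖ ^ 2 ≤
      (Ioc (-κ) (0 : ℝ)).indicator (fun _ => 9 * B ^ 2) t := by
    intro t ht
    have hu0 : uu f σ t = 0 := uu_zero ht
    unfold ww
    rw [hu0, sub_zero]
    by_cases h : t ∈ Ioc (-κ) (0 : ℝ)
    · rw [indicator_of_mem h]
      have h4 : ‖uu f σ (t + κ)‖ ≤ B :=
        uu_le (by linarith) hB hfB (by linarith [h.2])
      have h5 : ‖((Real.exp (κ * σ) : ℝ) : ℂ) * uu f σ (t + κ)‖ ≤ 3 * B := by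
        rw [norm_mul, Complex.norm_real, Real.norm_of_nonneg (Real.exp_nonneg _)]
        exact mul_le_mul hexp h4 (norm_nonneg _) (by norm_num)
      calc ‖((Real.exp (κ * σ) : ℝ) : ℂ) * uu f σ (t + κ)‖ ^ 2 ≤ (3 * B) ^ 2 :=
            pow_le_pow_left₀ (norm_nonneg _) h5 2
        _ = 9 * B ^ 2 := by ring
    · rw [indicator_of_notMem h]
      have h6 : t ≤ -κ := by
        by_contra hcon
        exact h ⟨lt_of_not_ge hcon, ht⟩
      rw [uu_zero (by linarith : t + κ ≤ 0), mul_zero, norm_zero]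
      norm_num
  have h7 : 0 ≤ ∫ t in Iic (0 : ℝ), ‖ww f κ σ t‖ ^ 2 :=
    integral_nonneg fun t => by positivity
  rw [abs_of_nonneg h7]
  have h8 : IntegrableOn ((Ioc (-κ) (0 : ℝ)).indicator (fun _ => 9 * B ^ 2)) (Iic (0 : ℝ)) := by
    refine Integrable.integrableOn ?_
    rw [integrable_indicator_iff measurableSet_Ioc]
    exact (ContinuousOn.integrableOn_compact isCompact_Icc continuousOn_const).mono_set
      Ioc_subset_Icc_self
  refine (setIntegral_mono_on hint.integrableOn h8 measurableSet_Iic h3).trans ?_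
  rw [setIntegral_indicator measurableSet_Ioc, setIntegral_const, smul_eq_mul]
  have h9 : Iic (0 : ℝ) ∩ Ioc (-κ) 0 = Ioc (-κ) 0 := by
    ext t
    constructor
    · rintro ⟨_, h⟩; exact h
    · intro h; exact ⟨h.2, h⟩
  rw [h9, Real.volume_real_Ioc_of_le (by linarith)]
  apply le_of_eq
  ring

theorem lin6 {F0 F1 F2 F3 F4 F5 : ℝ → ℂ} (h0 : Integrable F0) (h1 : Integrable F1)
    (h2 : Integrable F2) (h3 : Integrable F3) (h4 : Integrable F4) (h5 : Integrable F5)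
    (a b d g : ℂ) :
    Integrable (fun ξ => (1 / 2 : ℂ) * F0 ξ + (1 / 2 : ℂ) *
      (a * F1 ξ + b * F2 ξ + b * F3 ξ + d * F4 ξ - g * F5 ξ)) ∧
    ∫ ξ, ((1 / 2 : ℂ) * F0 ξ + (1 / 2 : ℂ) *
      (a * F1 ξ + b * F2 ξ + b * F3 ξ + d * F4 ξ - g * F5 ξ)) =
      (1 / 2 : ℂ) * (∫ ξ, F0 ξ) + (1 / 2 : ℂ) *
      (a * (∫ ξ, F1 ξ) + b * (∫ ξ, F2 ξ) + b * (∫ ξ, F3 ξ) + d * (∫ ξ, F4 ξ) -
        g * ∫ ξ, F5 ξ) := by
  have i0 : Integrable (fun ξ => (1 / 2 : ℂ) * F0 ξ) := h0.const_mul _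
  have i1 : Integrable (fun ξ => a * F1 ξ) := h1.const_mul _
  have i2 : Integrable (fun ξ => b * F2 ξ) := h2.const_mul _
  have i3 : Integrable (fun ξ => b * F3 ξ) := h3.const_mul _
  have i4 : Integrable (fun ξ => d * F4 ξ) := h4.const_mul _
  have i5 : Integrable (fun ξ => g * F5 ξ) := h5.const_mul _
  have i12 : Integrable (fun ξ => a * F1 ξ + b * F2 ξ) := i1.add i2
  have i123 : Integrable (fun ξ => a * F1 ξ + b * F2 ξ + b * F3 ξ) := i12.add i3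
  have i1234 : Integrable (fun ξ => a * F1 ξ + b * F2 ξ + b * F3 ξ + d * F4 ξ) := i123.add i4
  have i12345 : Integrable (fun ξ => a * F1 ξ + b * F2 ξ + b * F3 ξ + d * F4 ξ - g * F5 ξ) :=
    i1234.sub i5
  have i6 : Integrable (fun ξ => (1 / 2 : ℂ) *
      (a * F1 ξ + b * F2 ξ + b * F3 ξ + d * F4 ξ - g * F5 ξ)) := i12345.const_mul _
  refine ⟨i0.add i6, ?_⟩
  rw [integral_add i0 i6, integral_const_mul, integral_const_mul, integral_sub i1234 i5,
    integral_add i123 i4, integral_add i12 i3, integral_add i1 i2, integral_const_mul,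
    integral_const_mul, integral_const_mul, integral_const_mul, integral_const_mul]

theorem t_KPL : S_KPL := by
  refine ⟨40, by norm_num, fun f B κ σ hf hB hfB hκ hκ1 hσ hσ1 => ?_⟩
  have hσ0 : 0 < σ := by linarith
  have hu1 := uu1 f hf σ hσ
  have hu2 := uu2 f hf σ hσ
  have hw1 := ww1 (κ := κ) hf hσ
  have hw2 := ww2 (κ := κ) hf hσ
  have hk1 := kk1 κ σ
  set c : ℝ := Real.exp (κ * σ) with hc
  have hc0 : 0 ≤ c := Real.exp_nonneg _
  have hc3 : c ≤ 3 := by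
    calc Real.exp (κ * σ) ≤ Real.exp 1 := Real.exp_le_exp.2 (by nlinarith)
      _ ≤ 3 := Real.exp_one_lt_d9.le.trans (by norm_num)
  set e : ℝ → ℂ := fun ξ => cexp ((2 * Real.pi * κ * ξ : ℝ) * I) with he
  have hkt : ∀ ξ, 𝓕 (fun x => kk κ σ (x + -κ)) ξ = conj (e ξ) * 𝓕 (kk κ σ) ξ := by
    intro ξ
    rw [four_shift, he]
    simp only
    rw [← Complex.exp_conj]
    congr 2
    rw [map_mul, Complex.conj_ofReal, Complex.conj_I]
    push_cast
    ring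
  have hks1 : Integrable (fun x => kk κ σ (x + -κ)) := hk1.comp_add_right (-κ)
  -- the function
  obtain ⟨H, hH⟩ : ∃ H : ℝ → ℂ, H = fun ξ =>
    (1 / 2 : ℂ) * (𝓕 (ww f κ σ) ξ * conj (𝓕 (ww f κ σ) ξ)) + (1 / 2 : ℂ) *
      ((-((c : ℂ) ^ 2 + 1)) * (𝓕 (uu f σ) ξ * 𝓕 (uu f σ) ξ) +
        (c : ℂ) * (𝓕 (uu f σ) ξ * 𝓕 (uu f σ) ξ * cexp ((2 * Real.pi * ξ * κ : ℝ) * I)) +
        (c : ℂ) * (𝓕 (uu f σ) ξ * 𝓕 (uu f σ) ξ * cexp ((2 * Real.pi * ξ * (-κ) : ℝ) * I)) +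
        (2 * σ * c : ℂ) * (𝓕 (uu f σ) ξ * 𝓕 (uu f σ) ξ * conj (𝓕 (fun x => kk κ σ (x + -κ)) ξ)) -
        (2 * σ : ℂ) * (𝓕 (uu f σ) ξ * 𝓕 (uu f σ) ξ * conj (𝓕 (kk κ σ) ξ))) := ⟨_, rfl⟩
  have i23 : ∀ t : ℝ, Integrable fun ξ : ℝ =>
      𝓕 (uu f σ) ξ * 𝓕 (uu f σ) ξ * cexp ((2 * Real.pi * ξ * t : ℝ) * I) := by
    intro t
    have h1 : Integrable fun ξ : ℝ => cexp ((2 * Real.pi * ξ * t : ℝ) * I) *
        (𝓕 (uu f σ) ξ * 𝓕 (uu f σ) ξ) := by
      refine Integrable.bdd_mul (c := 1) (pars2_int _ _ hu1 hu2 hu1 hu2) ?_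
        (ae_of_all _ fun ξ => ?_)
      · refine Continuous.aestronglyMeasurable ?_
        fun_prop
      · rw [Complex.norm_exp_ofReal_mul_I]
    refine h1.congr (ae_of_all _ fun ξ => ?_)
    simp only
    ring
  obtain ⟨l1, l2⟩ := lin6 (pars_int _ _ hw1 hw2 hw1 hw2) (pars2_int _ _ hu1 hu2 hu1 hu2) (i23 κ)
    (i23 (-κ)) (g3_int hu1 hu2 hu1 hu2 hks1) (g3_int hu1 hu2 hu1 hu2 hk1) (-((c : ℂ) ^ 2 + 1)) (c : ℂ)
    (2 * σ * c : ℂ) (2 * σ : ℂ)
  have hHi : Integrable H := by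
    rw [hH]
    exact l1
  -- pointwise
  have hpt : ∀ y : ℝ, (ld f (pt σ y)).re ^ 2 * hh κ σ y = (H (y / (2 * Real.pi))).re := by
    intro y
    set ξ := y / (2 * Real.pi) with hξ
    set s := pt σ y with hs
    have hs0 : s ≠ 0 := pt_ne σ y hσ0
    have hs0' : conj s ≠ 0 := fun h => hs0 ((map_eq_zero _).1 h)
    have hK : 𝓕 (kk κ σ) ξ = (cexp ((κ : ℂ) * s) - 1) / s := four_kk hκ hσ0 y
    have hU : lap f s = 𝓕 (uu f σ) ξ := lap_pt f σ y
    set U := 𝓕 (uu f σ) ξ with hUd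
    set K := 𝓕 (kk κ σ) ξ with hKd
    have hpi : (Real.pi : ℝ) ≠ 0 := Real.pi_ne_zero
    have hE : cexp ((κ : ℂ) * s) = (c : ℂ) * e ξ := by
      rw [hc, he, Complex.ofReal_exp, ← Complex.exp_add]
      congr 1
      rw [hs, hξ]
      unfold pt
      push_cast
      field_simp
    have hee : e ξ * conj (e ξ) = 1 := by
      rw [Complex.mul_conj, Complex.normSq_eq_norm_sq]
      rw [he]
      simp only
      rw [Complex.norm_exp_ofReal_mul_I]
      simp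
    have he1 : cexp ((2 * Real.pi * ξ * κ : ℝ) * I) = e ξ := by
      rw [he]
      simp only
      congr 2
      push_cast
      ring
    have he2 : cexp ((2 * Real.pi * ξ * (-κ) : ℝ) * I) = conj (e ξ) := by
      rw [he]
      simp only
      rw [← Complex.exp_conj]
      congr 1
      rw [map_mul, Complex.conj_ofReal, Complex.conj_I]
      push_cast
      ring
    have hKs : K * s = (c : ℂ) * e ξ - 1 := by
      rw [hK, div_mul_cancel₀ _ hs0, hE]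
    have hKs' : conj K * conj s = (c : ℂ) * conj (e ξ) - 1 := by
      have := congrArg (starRingEnd ℂ) hKs
      simpa only [map_mul, map_sub, map_one, Complex.conj_ofReal] using this
    have hss : (2 * σ : ℂ) = s + conj s := by
      rw [hs, conj_pt]
      unfold pt
      ring
    have hww : 𝓕 (ww f κ σ) ξ = ((c : ℂ) * e ξ - 1) * U := four_ww hf hσ ξ
    have h1 : H ξ = ((1 / 2 : ℂ) * (ld f s * conj (ld f s)) +
        (1 / 2 : ℂ) * (ld f s * ld f s)) * (K * conj K) := by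
      rw [hH]
      simp only
      rw [← hUd, ← hKd, hww, hkt ξ, ← hKd, he1, he2]
      unfold ld
      rw [hU]
      simp only [map_mul, map_sub, map_one, map_neg, Complex.conj_ofReal, Complex.conj_conj]
      have e1 : ((1 / 2 : ℂ) * (-s * U * (-conj s * conj U)) + (1 / 2 : ℂ) * (-s * U * (-s * U))) *
          (K * conj K) = (1 / 2 : ℂ) * (U * conj U) * ((K * s) * (conj K * conj s)) +
          (1 / 2 : ℂ) * (U * U) * ((K * s) * ((s + conj s) * conj K) -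
            (K * s) * (conj K * conj s)) := by ring
      rw [e1, hKs, hKs', ← hss]
      linear_combination (-(1 / 2 : ℂ) * (c : ℂ) ^ 2 * (U * U)) * (1 - hee)
    rw [h1]
    have h2 : hh κ σ y = Complex.normSq K := by
      unfold hh
      rw [Complex.normSq_eq_norm_sq, hK]
    rw [h2, Complex.mul_conj K, mul_comm _ ((Complex.normSq K : ℝ) : ℂ), Complex.re_ofReal_mul,
      mul_comm]
    congr 1
    rw [Complex.mul_conj]
    have h6 : (1 / 2 : ℂ) = ((1 / 2 : ℝ) : ℂ) := by push_cast; rfl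
    rw [h6, Complex.add_re, Complex.re_ofReal_mul, Complex.re_ofReal_mul, Complex.ofReal_re,
      Complex.normSq_apply, Complex.mul_re]
    ring
  -- the integrals
  have hu0 : ∀ t, t ≤ 0 → uu f σ t = 0 := fun t ht => uu_zero ht
  have J0 : ∫ ξ, 𝓕 (uu f σ) ξ * 𝓕 (uu f σ) ξ = 0 := by
    have h1 := pars2 _ _ hu1 hu2 hu1 hu2 0
    rw [conv_zero hu0 hu0 le_rfl] at h1
    simpa using h1
  have J3 : ∫ ξ : ℝ, 𝓕 (uu f σ) ξ * 𝓕 (uu f σ) ξ * cexp ((2 * Real.pi * ξ * (-κ) : ℝ) * I) = 0 := by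
    rw [pars2 _ _ hu1 hu2 hu1 hu2 (-κ)]
    exact conv_zero hu0 hu0 (by linarith)
  have J5 : ∫ ξ, 𝓕 (uu f σ) ξ * 𝓕 (uu f σ) ξ * conj (𝓕 (kk κ σ) ξ) = 0 := by
    rw [g3 hu1 hu2 hu1 hu2 hk1]
    have h1 : ∀ t, conj (kk κ σ t) * ∫ x, uu f σ x * uu f σ (t - x) = 0 := by
      intro t
      rcases le_or_gt t 0 with h | h
      · rw [conv_zero hu0 hu0 h, mul_zero]
      · rw [kk_zero h, map_zero, zero_mul]
    simp_rw [h1]
    simp
  set J2 := ∫ x, uu f σ x * uu f σ (κ - x) with hJ2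
  set J4 := ∫ t, conj (kk κ σ (t + -κ)) * ∫ x, uu f σ x * uu f σ (t - x) with hJ4
  have hI : ∫ ξ, H ξ = (1 / 2 : ℂ) * (∫ x, ww f κ σ x * conj (ww f κ σ x)) +
      (1 / 2 : ℂ) * ((c : ℂ) * J2 + (2 * σ * c : ℂ) * J4) := by
    rw [hH, l2, pars _ _ hw1 hw2 hw1 hw2, J0, J3, J5, pars2 _ _ hu1 hu2 hu1 hu2 κ,
      g3 hu1 hu2 hu1 hu2 hks1]
    ring
  have hcv : ∀ t, t ≤ κ → ‖∫ x, uu f σ x * uu f σ (t - x)‖ ≤ B ^ 2 * κ := by
    intro t ht
    rcases le_or_gt t 0 with h | h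
    · rw [conv_zero hu0 hu0 h, norm_zero]
      positivity
    · have h1 := int_bd (F := fun x => uu f σ x * uu f σ (t - x)) (a := 0) (b := t) (M := B ^ 2)
        h.le (fun x => ?_) (fun x hx => ?_)
      · refine h1.trans ?_
        rw [sub_zero]
        exact mul_le_mul_of_nonneg_left ht (by positivity)
      · rcases le_or_gt x 0 with hx | hx
        · rw [hu0 x hx, zero_mul, norm_zero]; positivity
        · rcases le_or_gt (t - x) 0 with hx' | hx'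
          · rw [hu0 (t - x) hx', mul_zero, norm_zero]; positivity
          · rw [norm_mul, sq]
            exact mul_le_mul (uu_le hσ0.le hB hfB (by linarith)) (uu_le hσ0.le hB hfB (by linarith))
              (norm_nonneg _) hB
      · rcases le_or_gt x 0 with hx1 | hx1
        · rw [hu0 x hx1, zero_mul]
        · rw [hu0 (t - x), mul_zero]
          by_contra hcon
          exact hx ⟨hx1.le, by linarith⟩
  have hJ2b : ‖J2‖ ≤ B ^ 2 * κ := hcv κ le_rfl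
  have hJ4b : ‖J4‖ ≤ 3 * (B ^ 2 * κ) := by
    have h1 := int_bd (F := fun t => conj (kk κ σ (t + -κ)) * ∫ x, uu f σ x * uu f σ (t - x))
      (a := 0) (b := κ) (M := 3 * (B ^ 2 * κ)) hκ.le (fun t => ?_) (fun t ht => ?_)
    · refine h1.trans ?_
      rw [sub_zero]
      have h0 : 0 ≤ 3 * (B ^ 2 * κ) := by positivity
      nlinarith
    · rcases le_or_gt t κ with h | h
      · rw [norm_mul, RCLike.norm_conj]
        exact mul_le_mul (kk_le hκ hκ1 hσ0.le hσ1 _) (hcv t h) (norm_nonneg _) (by norm_num)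
      · rw [kk_zero (by linarith : 0 < t + -κ), map_zero, zero_mul, norm_zero]
        positivity
    · rcases le_or_gt t 0 with h | h
      · rw [conv_zero hu0 hu0 h, mul_zero]
      · rw [kk_zero, map_zero, zero_mul]
        by_contra hcon
        exact ht ⟨h.le, by linarith⟩
  have hsi := integrable_scale hHi
  refine ⟨?_, ?_, ?_⟩
  · have h1 := (ww_int (κ := κ) hf hσ).integrableOn (s := Ioi (0 : ℝ))
    refine h1.congr_fun (fun t ht => ?_) measurableSet_Ioi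
    exact ww_sq hκ (mem_Ioi.1 ht)
  · have h1 : Integrable fun y : ℝ => (H (y / (2 * Real.pi))).re := hsi.re
    refine h1.congr (ae_of_all _ fun y => ?_)
    exact (hpt y).symm
  · have h1 : ∫ y : ℝ, (ld f (pt σ y)).re ^ 2 * hh κ σ y =
        ∫ y : ℝ, (H (y / (2 * Real.pi))).re := by
      congr 1
      funext y
      exact hpt y
    have h2 : ∫ x, ww f κ σ x * conj (ww f κ σ x) = ((∫ t, ‖ww f κ σ t‖ ^ 2 : ℝ) : ℂ) := by
      rw [← integral_complex_ofReal]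
      congr 1
      funext t
      rw [Complex.mul_conj, Complex.normSq_eq_norm_sq]
    set R : ℂ := (c : ℂ) * J2 + (2 * σ * c : ℂ) * J4 with hR
    have h3 : (1 / Real.pi) * ∫ y : ℝ, (ld f (pt σ y)).re ^ 2 * hh κ σ y =
        (∫ t, ‖ww f κ σ t‖ ^ 2) + R.re := by
      rw [h1, re_int hsi, int_scale, hI, h2]
      have h4 : (2 * Real.pi : ℂ) * ((1 / 2 : ℂ) * ((∫ t, ‖ww f κ σ t‖ ^ 2 : ℝ) : ℂ) +
          (1 / 2 : ℂ) * R) =
          ((Real.pi * ∫ t, ‖ww f κ σ t‖ ^ 2 : ℝ) : ℂ) + ((Real.pi : ℝ) : ℂ) * R := by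
        push_cast
        ring
      rw [h4, Complex.add_re, Complex.re_ofReal_mul, Complex.ofReal_re]
      have := Real.pi_ne_zero
      field_simp
    have hRb : |R.re| ≤ 21 * (B ^ 2 * κ) := by
      refine (Complex.abs_re_le_norm R).trans ?_
      rw [hR]
      refine (norm_add_le _ _).trans ?_
      rw [norm_mul, norm_mul, Complex.norm_real, Real.norm_of_nonneg hc0]
      have h5 : ‖(2 * σ * c : ℂ)‖ = 2 * σ * c := by
        rw [norm_mul, norm_mul, Complex.norm_real, Complex.norm_real, Real.norm_of_nonneg hc0,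
          Real.norm_of_nonneg hσ0.le]
        simp
      rw [h5]
      have h6 : 2 * σ * c ≤ 6 := by nlinarith
      have h7 : c * ‖J2‖ ≤ 3 * (B ^ 2 * κ) := mul_le_mul hc3 hJ2b (norm_nonneg _) (by norm_num)
      have h8 : 2 * σ * c * ‖J4‖ ≤ 6 * (3 * (B ^ 2 * κ)) :=
        mul_le_mul h6 hJ4b (norm_nonneg _) (by norm_num)
      linarith
    rw [h3]
    have h9 := ww_total hf hB hfB hκ hκ1 hσ hσ1
    have h10 : (∫ t in Ioi (0 : ℝ), ‖f (t + κ) - f t‖ ^ 2 * Real.exp (-(2 * σ * t))) -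
        ((∫ t, ‖ww f κ σ t‖ ^ 2) + R.re) = -((∫ t, ‖ww f κ σ t‖ ^ 2) -
        ∫ t in Ioi (0 : ℝ), ‖f (t + κ) - f t‖ ^ 2 * Real.exp (-(2 * σ * t))) - R.re := by ring
    rw [h10]
    refine (abs_sub _ _).trans ?_
    rw [abs_neg]
    have h11 : 0 ≤ B ^ 2 * κ := by positivity
    linarith

end Pool.Agent.Q257.CP
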