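import Pool.Agent.Q257.CP.Four
import Pool.Agent.Q253.CP.Stm

/-! # Project CP, job KPO -/

set_option autoImplicit false

namespace Pool.Agent.Q257.CP

open MeasureTheory Filter Topology Set Complex FourierTransform
open Pool.Agent.Q253.HV Pool.Agent.Q237.HV Pool.Agent.Q253.CP
open scoped ENNReal ComplexConjugate

theorem lin3 {F1 F2 F3 : ℝ → ℂ} (h1 : Integrable F1)
    (h2 : Integrable F2) (h3 : Integrable F3) (a b : ℂ) :
    Integrable (fun ξ => a * F1 ξ + b * F2 ξ + F3 ξ) ∧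
    ∫ ξ, (a * F1 ξ + b * F2 ξ + F3 ξ) =
      a * (∫ ξ, F1 ξ) + b * (∫ ξ, F2 ξ) + (∫ ξ, F3 ξ) := by
  have i1 : Integrable (fun ξ => a * F1 ξ) := h1.const_mul _
  have i2 : Integrable (fun ξ => b * F2 ξ) := h2.const_mul _
  have i12 : Integrable (fun ξ => a * F1 ξ + b * F2 ξ) := i1.add i2
  refine ⟨i12.add h3, ?_⟩
  rw [integral_add i12 h3, integral_add i1 i2, integral_const_mul, integral_const_mul]

theorem t_KPO : S_KPO := by
  refine ⟨200, by norm_num, fun f B κ σ τ hf hB hfB hκ hκ1 hσ hσ1 hτ hτ1 => ?_⟩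
  have hσ0 : 0 < σ := by linarith
  have hτ0 : 0 < τ := by linarith
  have hu1 := uu1 f hf τ hτ
  have hu2 := uu2 f hf τ hτ
  have hk1 := kk1 κ σ
  have hk2 := kk2 κ σ
  set c : ℝ := Real.exp (κ * σ) with hc
  have hc0 : 0 ≤ c := Real.exp_nonneg _
  have hc3 : c ≤ 3 := by
    calc Real.exp (κ * σ) ≤ Real.exp 1 := Real.exp_le_exp.2 (by nlinarith)
      _ ≤ 3 := Real.exp_one_lt_d9.le.trans (by norm_num)
  set e : ℝ → ℂ := fun ξ => cexp ((2 * Real.pi * κ * ξ : ℝ) * I) with he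
  have hus : ∀ ξ, 𝓕 (fun x => uu f τ (x + κ)) ξ = e ξ * 𝓕 (uu f τ) ξ := fun ξ => four_shift _ κ ξ
  have hus1 : Integrable (fun x => uu f τ (x + κ)) := hu1.comp_add_right κ
  have hus2 : MemLp (fun x => uu f τ (x + κ)) 2 :=
    hu2.comp_measurePreserving (measurePreserving_add_right volume κ)
  obtain ⟨H, hH⟩ : ∃ H : ℝ → ℂ, H = fun ξ =>
      (-((τ : ℂ) - σ)) * (𝓕 (uu f τ) ξ * 𝓕 (kk κ σ) ξ * conj (𝓕 (kk κ σ) ξ)) +
      (-(c : ℂ)) * (𝓕 (fun x => uu f τ (x + κ)) ξ * conj (𝓕 (kk κ σ) ξ)) +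
      𝓕 (uu f τ) ξ * conj (𝓕 (kk κ σ) ξ) := ⟨_, rfl⟩
  obtain ⟨l1, l2⟩ := lin3 (g3_int hu1 hu2 hk1 hk2 hk1) (pars_int _ _ hus1 hus2 hk1 hk2)
    (pars_int _ _ hu1 hu2 hk1 hk2) (-((τ : ℂ) - σ)) (-(c : ℂ))
  have hHi : Integrable H := by
    rw [hH]
    exact l1
  have hpt : ∀ y : ℝ, (ld f (pt τ y)).re * hh κ σ y = (H (y / (2 * Real.pi))).re := by
    intro y
    set ξ := y / (2 * Real.pi) with hξ
    set s := pt σ y with hs
    have hs0 : s ≠ 0 := pt_ne σ y hσ0
    have hK : 𝓕 (kk κ σ) ξ = (cexp ((κ : ℂ) * s) - 1) / s := four_kk hκ hσ0 y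
    have hU : lap f (pt τ y) = 𝓕 (uu f τ) ξ := lap_pt f τ y
    set U := 𝓕 (uu f τ) ξ with hUd
    set K := 𝓕 (kk κ σ) ξ with hKd
    have hpi : (Real.pi : ℝ) ≠ 0 := Real.pi_ne_zero
    have hE : cexp ((κ : ℂ) * s) = (c : ℂ) * e ξ := by
      rw [hc, he, Complex.ofReal_exp, ← Complex.exp_add]
      congr 1
      rw [hs, hξ]
      unfold pt
      push_cast
      field_simp
    have hKs : K * s = (c : ℂ) * e ξ - 1 := by
      rw [hK, div_mul_cancel₀ _ hs0, hE]
    have hst : pt τ y = ((τ : ℂ) - σ) + s := by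
      rw [hs]
      unfold pt
      ring
    have h1 : H ξ = ld f (pt τ y) * (K * conj K) := by
      rw [hH]
      simp only
      rw [hus ξ, ← hUd, ← hKd]
      unfold ld
      rw [hU, hst]
      linear_combination (U * conj K) * hKs
    rw [h1]
    have h2 : hh κ σ y = Complex.normSq K := by
      unfold hh
      rw [Complex.normSq_eq_norm_sq, hK]
    rw [h2, Complex.mul_conj K, mul_comm _ ((Complex.normSq K : ℝ) : ℂ), Complex.re_ofReal_mul,
      mul_comm]
  have hu0 : ∀ t, t ≤ 0 → uu f τ t = 0 := fun t ht => uu_zero ht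
  have J3 : ∫ ξ, 𝓕 (uu f τ) ξ * conj (𝓕 (kk κ σ) ξ) = 0 := by
    rw [pars _ _ hu1 hu2 hk1 hk2]
    have h1 : ∀ x, uu f τ x * conj (kk κ σ x) = 0 := by
      intro x
      rcases le_or_gt x 0 with h | h
      · rw [hu0 x h, zero_mul]
      · rw [kk_zero h, map_zero, mul_zero]
    simp_rw [h1]
    simp
  set J1 := ∫ t, conj (kk κ σ t) * ∫ x, uu f τ x * kk κ σ (t - x) with hJ1
  set J2 := ∫ x, uu f τ (x + κ) * conj (kk κ σ x) with hJ2
  have hI : ∫ ξ, H ξ = (-((τ : ℂ) - σ)) * J1 + (-(c : ℂ)) * J2 := by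
    rw [hH, l2, g3 hu1 hu2 hk1 hk2 hk1, pars _ _ hus1 hus2 hk1 hk2, J3, add_zero]
  have hJ2b : ‖J2‖ ≤ 3 * B * κ := by
    have h1 := int_bd (F := fun x => uu f τ (x + κ) * conj (kk κ σ x))
      (a := -κ) (b := 0) (M := 3 * B) (by linarith) (fun x => ?_) (fun x hx => ?_)
    · refine h1.trans (le_of_eq ?_)
      ring
    · rcases le_or_gt x 0 with h | h
      · rw [norm_mul, RCLike.norm_conj, mul_comm (3 : ℝ)]
        exact mul_le_mul (uu_le hτ0.le hB hfB (by linarith)) (kk_le hκ hκ1 hσ0.le hσ1 _)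
          (norm_nonneg _) hB
      · rw [kk_zero h, map_zero, mul_zero, norm_zero]
        positivity
    · rcases le_or_gt x 0 with h | h
      · rw [kk_zero', map_zero, mul_zero]
        by_contra hcon
        exact hx ⟨not_lt.1 hcon, h⟩
      · rw [kk_zero h, map_zero, mul_zero]
  have hin : ∀ t, t ≤ 0 → ‖∫ x, uu f τ x * kk κ σ (t - x)‖ ≤ 3 * B * κ := by
    intro t ht
    have h1 := int_bd (F := fun x => uu f τ x * kk κ σ (t - x))
      (a := 0) (b := κ) (M := 3 * B) hκ.le (fun x => ?_) (fun x hx => ?_)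
    · refine h1.trans (le_of_eq ?_)
      ring
    · rcases le_or_gt x 0 with h | h
      · rw [hu0 x h, zero_mul, norm_zero]
        positivity
      · rcases le_or_gt x κ with h' | h'
        · rw [norm_mul, mul_comm (3 : ℝ)]
          exact mul_le_mul (uu_le hτ0.le hB hfB (by linarith)) (kk_le hκ hκ1 hσ0.le hσ1 _)
            (norm_nonneg _) hB
        · rw [kk_zero' (by linarith : t - x < -κ), mul_zero, norm_zero]
          positivity
    · rcases le_or_gt x 0 with h | h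
      · rw [hu0 x h, zero_mul]
      · rw [kk_zero', mul_zero]
        by_contra hcon
        exact hx ⟨h.le, by linarith⟩
  have hJ1b : ‖J1‖ ≤ 9 * B * κ := by
    have h1 := int_bd (F := fun t => conj (kk κ σ t) * ∫ x, uu f τ x * kk κ σ (t - x))
      (a := -κ) (b := 0) (M := 3 * (3 * B * κ)) (by linarith) (fun t => ?_) (fun t ht => ?_)
    · refine h1.trans ?_
      have h0 : 0 ≤ B * κ := by positivity
      nlinarith
    · rcases le_or_gt t 0 with h | h
      · rw [norm_mul, RCLike.norm_conj]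
        exact mul_le_mul (kk_le hκ hκ1 hσ0.le hσ1 _) (hin t h) (norm_nonneg _) (by norm_num)
      · rw [kk_zero h, map_zero, zero_mul, norm_zero]
        positivity
    · rcases le_or_gt t 0 with h | h
      · rw [kk_zero', map_zero, zero_mul]
        by_contra hcon
        exact ht ⟨not_lt.1 hcon, h⟩
      · rw [kk_zero h, map_zero, zero_mul]
  have hsi := integrable_scale hHi
  refine ⟨?_, ?_⟩
  · have h1 : Integrable fun y : ℝ => (H (y / (2 * Real.pi))).re := hsi.re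
    refine h1.congr (ae_of_all _ fun y => ?_)
    exact (hpt y).symm
  · have h1 : ∫ y : ℝ, (ld f (pt τ y)).re * hh κ σ y = ∫ y : ℝ, (H (y / (2 * Real.pi))).re := by
      congr 1
      funext y
      exact hpt y
    rw [h1, re_int hsi, int_scale, hI]
    refine (Complex.abs_re_le_norm _).trans ?_
    rw [norm_mul]
    have h2 : ‖(2 * Real.pi : ℂ)‖ ≤ 8 := by
      rw [norm_mul, Complex.norm_real, Real.norm_of_nonneg Real.pi_pos.le]
      have := Real.pi_lt_d2
      simp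
      linarith
    have h3 : ‖(-((τ : ℂ) - σ)) * J1 + (-(c : ℂ)) * J2‖ ≤ 18 * B * κ := by
      refine (norm_add_le _ _).trans ?_
      rw [norm_mul, norm_mul, norm_neg, norm_neg, Complex.norm_real, Real.norm_of_nonneg hc0,
        ← Complex.ofReal_sub, Complex.norm_real]
      have h4 : ‖τ - σ‖ ≤ 1 := by
        rw [Real.norm_eq_abs, abs_le]
        constructor <;> linarith
      have h5 : ‖τ - σ‖ * ‖J1‖ ≤ 1 * (9 * B * κ) :=
        mul_le_mul h4 hJ1b (norm_nonneg _) zero_le_one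
      have h6 : c * ‖J2‖ ≤ 3 * (3 * B * κ) := mul_le_mul hc3 hJ2b (norm_nonneg _) (by norm_num)
      linarith
    have h0 : 0 ≤ B * κ := by positivity
    calc ‖(2 * Real.pi : ℂ)‖ * ‖(-((τ : ℂ) - σ)) * J1 + (-(c : ℂ)) * J2‖ ≤ 8 * (18 * B * κ) :=
          mul_le_mul h2 h3 (norm_nonneg _) (by norm_num)
      _ ≤ 200 * B * κ := by nlinarith

end Pool.Agent.Q257.CP
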