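import Pool.Agent.Q253.CP.Stm
import Pool.Agent.Q98.HV.BG
import Pool.Agent.Q24.HV.Nr
import Pool.Agent.Q213.GM.Lap
import Pool.Agent.Q296.GM.Rh

/-! Project CP, job BG: the Riemann hypothesis for the characters of a set implies the mean square
bound for the function of the set. -/

set_option autoImplicit false

namespace Pool.Agent.Q257.CP.BGm

open MeasureTheory Filter Topology Set Complex
open Pool.Agent.Q253.HV Pool.Agent.Q253.LQ Pool.Agent.Q253.CP
open DirichletCharacter (LFunction)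
open Pool.Agent.Q260.GM (ph L2psi)
open Pool.Agent.Q213.GM (ph_meas RH_of)
open Pool.Agent.Q24.HV (EE_nonneg EE_le psiC_one)
open Pool.Agent.Q98.HV (psiC_meas)

theorem sq_int : IntegrableOn (fun t : ℝ => t ^ 2 * Real.exp (-t)) (Ioi 0) := by
  have h := Real.GammaIntegral_convergent (s := 3) (by norm_num)
  refine h.congr_fun (fun t ht => ?_) measurableSet_Ioi
  simp only []
  rw [show (3 : ℝ) - 1 = ((2 : ℕ) : ℝ) by norm_num, Real.rpow_natCast]
  ring

theorem norm_sq_le (q : ℕ) [NeZero q] {t : ℝ} (ht : 0 < t) :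
    ‖psiC (1 : DirichletCharacter ℂ q) (Real.exp t) - (Real.exp t : ℂ)‖ ^ 2 ≤
      2 * ph t ^ 2 + 8 * Real.log q ^ 2 * t ^ 2 := by
  rw [psiC_one, ← Complex.ofReal_sub, Complex.norm_real, Real.norm_eq_abs, sq_abs]
  have h1 : Chebyshev.psi (Real.exp t) - Pool.Agent.Q24.HV.EE q (Real.exp t) - Real.exp t =
      ph t - Pool.Agent.Q24.HV.EE q (Real.exp t) := by
    unfold ph
    ring
  rw [h1]
  have h2 := EE_nonneg q (Real.exp t)
  have h3 := EE_le q (Nat.one_le_iff_ne_zero.2 (NeZero.ne q)) ht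
  obtain ⟨e, he⟩ : ∃ e : ℝ, e = Pool.Agent.Q24.HV.EE q (Real.exp t) := ⟨_, rfl⟩
  rw [← he] at h2 h3 ⊢
  have h4 : e ^ 2 ≤ (2 * Real.log q * t) ^ 2 := pow_le_pow_left₀ h2 h3 2
  nlinarith [sq_nonneg (ph t + e)]

theorem rh_of_grh {q : ℕ} [NeZero q] (h : GRHc (1 : DirichletCharacter ℂ q)) : RiemannHypothesis := by
  refine RH_of fun s hs h0 => ?_
  rcases le_or_gt 1 s.re with h1 | h1
  · exact riemannZeta_ne_zero_of_one_le_re h1 h0
  · refine h s hs h1 ?_
    have hs1 : s ≠ 1 := by rintro rfl; simp at h1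
    have := DirichletCharacter.LFunctionTrivChar_eq_mul_riemannZeta (N := q) hs1
    rw [h0, mul_zero] at this
    exact this

theorem adm_one {q : ℕ} [NeZero q] (h : GRHc (1 : DirichletCharacter ℂ q)) :
    Adm (fun t => psiC (1 : DirichletCharacter ℂ q) (Real.exp t) - (Real.exp t : ℂ)) := by
  have hm : Measurable (fun t : ℝ => psiC (1 : DirichletCharacter ℂ q) (Real.exp t) - (Real.exp t : ℂ)) :=
    (psiC_meas _).sub (Complex.measurable_ofReal.comp Real.measurable_exp)
  refine ⟨hm.aestronglyMeasurable, fun σ hσ => ?_⟩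
  have hL := Pool.Agent.Q296.GM.L2_of_rh (rh_of_grh h) (2 * σ) (by linarith)
  have hgi : IntegrableOn (fun t => 2 * (ph t ^ 2 * Real.exp (-(2 * σ * t))) +
      8 * Real.log q ^ 2 * (t ^ 2 * Real.exp (-t))) (Ioi 0) :=
    (hL.const_mul 2).add (sq_int.const_mul _)
  refine Integrable.mono' hgi ((hm.norm.pow_const 2).mul (by fun_prop)).aestronglyMeasurable ?_
  filter_upwards [self_mem_ae_restrict (measurableSet_Ioi (a := (0 : ℝ)))] with t ht
  have ht0 : (0 : ℝ) < t := ht
  rw [Real.norm_of_nonneg (by positivity)]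
  have h1 := norm_sq_le q ht0
  have h3 : Real.exp (-(2 * σ * t)) ≤ Real.exp (-t) := by
    apply Real.exp_le_exp.2
    nlinarith
  have h4 := mul_le_mul_of_nonneg_right h1 (Real.exp_pos (-(2 * σ * t))).le
  refine h4.trans ?_
  rw [add_mul]
  have h5 : 8 * Real.log q ^ 2 * t ^ 2 * Real.exp (-(2 * σ * t)) ≤ 8 * Real.log q ^ 2 * t ^ 2 * Real.exp (-t) :=
    mul_le_mul_of_nonneg_left h3 (by positivity)
  linarith

theorem adm_add {f g : ℝ → ℂ} (hf : Adm f) (hg : Adm g) : Adm (fun t => f t + g t) := by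
  refine ⟨hf.1.add hg.1, fun σ hσ => ?_⟩
  have h1 := ((hf.2 σ hσ).add (hg.2 σ hσ)).const_mul 2
  refine Integrable.mono' h1 ?_ (Eventually.of_forall fun t => ?_)
  · exact ((hf.1.add hg.1).norm.pow 2).mul (by fun_prop : Measurable fun t : ℝ =>
      Real.exp (-(2 * σ * t))).aestronglyMeasurable
  · rw [Real.norm_of_nonneg (by positivity)]
    simp only [Pi.add_apply]
    have h2 := norm_add_le (f t) (g t)
    have h3 : ‖f t + g t‖ ^ 2 ≤ 2 * (‖f t‖ ^ 2 + ‖g t‖ ^ 2) := by
      have h4 : ‖f t + g t‖ ^ 2 ≤ (‖f t‖ + ‖g t‖) ^ 2 := by gcongr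
      nlinarith [sq_nonneg (‖f t‖ - ‖g t‖)]
    calc ‖f t + g t‖ ^ 2 * Real.exp (-(2 * σ * t)) ≤
        2 * (‖f t‖ ^ 2 + ‖g t‖ ^ 2) * Real.exp (-(2 * σ * t)) := by gcongr
      _ = _ := by ring

theorem adm_zero : Adm (fun _ => (0 : ℂ)) := by
  refine ⟨aestronglyMeasurable_const, fun σ _ => ?_⟩
  simp

theorem adm_sum {ι : Type*} (X : Finset ι) (f : ι → ℝ → ℂ) (h : ∀ i ∈ X, Adm (f i)) :
    Adm (fun t => ∑ i ∈ X, f i t) := by
  classical
  induction X using Finset.induction_on with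
  | empty => simpa using adm_zero
  | insert i X hi ih =>
    have h1 : (fun t => ∑ j ∈ insert i X, f j t) = fun t => f i t + ∑ j ∈ X, f j t := by
      funext t
      rw [Finset.sum_insert hi]
    rw [h1]
    exact adm_add (h i (Finset.mem_insert_self i X)) (ih fun j hj => h j (Finset.mem_insert_of_mem hj))

end Pool.Agent.Q257.CP.BGm

namespace Pool.Agent.Q257.CP

open MeasureTheory Filter Topology Set Complex
open Pool.Agent.Q253.HV Pool.Agent.Q253.LQ Pool.Agent.Q253.CP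
open DirichletCharacter (LFunction)

/-- CP-BG -/
theorem t_BG : Pool.Agent.Q253.CP.S_BG := by
  classical
  intro q _ X h
  have h1 : fX X = fun t => ∑ χ ∈ X, (psiC χ (Real.exp t) -
      (if χ = 1 then ((Real.exp t : ℝ) : ℂ) else 0)) := by
    funext t
    unfold fX
    rw [Finset.sum_sub_distrib]
    congr 1
    rw [Finset.sum_ite_eq' X (1 : DirichletCharacter ℂ q) (fun _ => ((Real.exp t : ℝ) : ℂ))]
  rw [h1]
  refine BGm.adm_sum X (fun χ t => psiC χ (Real.exp t) -
      (if χ = 1 then ((Real.exp t : ℝ) : ℂ) else 0)) fun χ hχ => ?_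
  by_cases h2 : χ = 1
  · subst h2
    simp only [if_true]
    have h3 := BGm.adm_one (h 1 hχ)
    simpa using h3
  · simp only [h2, if_false, sub_zero]
    refine Pool.Agent.Q98.HV.t_BG q χ h2 fun s hs => ?_
    rcases le_or_gt 1 s.re with h3 | h3
    · exact DirichletCharacter.LFunction_ne_zero_of_one_le_re χ (Or.inl h2) h3
    · exact h χ hχ s hs h3

end Pool.Agent.Q257.CP
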