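import Pool.Agent.Q237.HV.PL

/-! # Project CP: Fourier transforms, tools -/

set_option autoImplicit false

namespace Pool.Agent.Q257.CP

open MeasureTheory Filter Topology Set Complex FourierTransform
open Pool.Agent.Q253.HV Pool.Agent.Q237.HV
open scoped ENNReal ComplexConjugate

theorem conj_four (w : ℝ → ℂ) (ξ : ℝ) :
    conj (𝓕 w ξ) = ∫ t, conj (w t) * cexp ((2 * Real.pi * ξ * t : ℝ) * I) := by
  rw [Real.fourier_real_eq_integral_exp_smul, ← integral_conj]
  congr 1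
  funext t
  rw [smul_eq_mul, map_mul, mul_comm, ← Complex.exp_conj]
  congr 2
  rw [map_mul, Complex.conj_ofReal, Complex.conj_I]
  push_cast
  ring

theorem four_le (w : ℝ → ℂ) (ξ : ℝ) : ‖𝓕 w ξ‖ ≤ ∫ t, ‖w t‖ := by
  rw [Real.fourier_real_eq_integral_exp_smul]
  refine (norm_integral_le_integral_norm _).trans (le_of_eq ?_)
  congr 1
  funext t
  rw [norm_smul, Complex.norm_exp_ofReal_mul_I, one_mul]

theorem g3_int {u v w : ℝ → ℂ} (hu1 : Integrable u) (hu2 : MemLp u 2) (hv1 : Integrable v)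
    (hv2 : MemLp v 2) (hw1 : Integrable w) :
    Integrable fun ξ => 𝓕 u ξ * 𝓕 v ξ * conj (𝓕 w ξ) := by
  have h1 : Integrable fun ξ => conj (𝓕 w ξ) * (𝓕 u ξ * 𝓕 v ξ) := by
    refine Integrable.bdd_mul (c := ∫ t, ‖w t‖) (pars2_int _ _ hu1 hu2 hv1 hv2) ?_ ?_
    · exact (Complex.continuous_conj.comp (four_cont _ hw1)).aestronglyMeasurable
    · refine ae_of_all _ fun ξ => ?_
      rw [RCLike.norm_conj]
      exact four_le w ξ
  refine h1.congr (ae_of_all _ fun ξ => ?_)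
  simp only
  ring

/-- the product of three transforms -/
theorem g3 {u v w : ℝ → ℂ} (hu1 : Integrable u) (hu2 : MemLp u 2) (hv1 : Integrable v)
    (hv2 : MemLp v 2) (hw1 : Integrable w) :
    ∫ ξ, 𝓕 u ξ * 𝓕 v ξ * conj (𝓕 w ξ) = ∫ t, conj (w t) * ∫ x, u x * v (t - x) := by
  have h1 : ∀ ξ, 𝓕 u ξ * 𝓕 v ξ * conj (𝓕 w ξ) =
      ∫ t, 𝓕 u ξ * 𝓕 v ξ * (conj (w t) * cexp ((2 * Real.pi * ξ * t : ℝ) * I)) := by
    intro ξ
    rw [conj_four, integral_const_mul]
  have hw1' : Integrable fun t => conj (w t) :=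
    (LinearIsometryEquiv.integrable_comp_iff (μ := volume) Complex.conjLIE).2 hw1
  have hprod : Integrable (Function.uncurry fun ξ t : ℝ =>
      𝓕 u ξ * 𝓕 v ξ * (conj (w t) * cexp ((2 * Real.pi * ξ * t : ℝ) * I)))
      (volume.prod volume) := by
    have h2 : Integrable (fun p : ℝ × ℝ => 𝓕 u p.1 * 𝓕 v p.1 * conj (w p.2))
        (volume.prod volume) :=
      Integrable.mul_prod (pars2_int _ _ hu1 hu2 hv1 hv2) hw1'
    have h3 : Integrable (fun p : ℝ × ℝ => cexp ((2 * Real.pi * p.1 * p.2 : ℝ) * I) *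
        (𝓕 u p.1 * 𝓕 v p.1 * conj (w p.2))) (volume.prod volume) := by
      refine Integrable.bdd_mul (c := 1) h2 phase_meas.aestronglyMeasurable
        (ae_of_all _ fun p => ?_)
      rw [Complex.norm_exp_ofReal_mul_I]
    refine h3.congr (ae_of_all _ fun p => ?_)
    simp only [Function.uncurry]
    ring
  simp_rw [h1]
  rw [integral_integral_swap hprod]
  congr 1
  funext t
  have h5 := pars2 _ _ hu1 hu2 hv1 hv2 t
  rw [← h5, ← integral_const_mul]
  congr 1
  funext ξ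
  ring

/-- translation -/
theorem four_shift (u : ℝ → ℂ) (κ ξ : ℝ) :
    𝓕 (fun x => u (x + κ)) ξ = cexp ((2 * Real.pi * κ * ξ : ℝ) * I) * 𝓕 u ξ := by
  rw [Real.fourier_real_eq_integral_exp_smul, Real.fourier_real_eq_integral_exp_smul,
    ← integral_const_mul]
  have h1 := integral_add_right_eq_self (μ := volume)
    (fun x : ℝ => cexp ((2 * Real.pi * κ * ξ : ℝ) * I) *
      (cexp (((-2 * Real.pi * x * ξ : ℝ) : ℂ) * I) • u x)) κ
  rw [← h1]
  congr 1
  funext x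
  rw [smul_eq_mul, smul_eq_mul, ← mul_assoc, ← Complex.exp_add]
  congr 2
  push_cast
  ring

/-- `e^(-σx)` on `[-κ, 0]` -/
noncomputable def kk (κ σ : ℝ) : ℝ → ℂ := (Icc (-κ) (0 : ℝ)).indicator fun t => cexp (-(σ : ℂ) * t)

theorem kk_le {κ σ : ℝ} (hκ : 0 < κ) (hκ1 : κ ≤ 1) (hσ0 : 0 ≤ σ) (hσ1 : σ ≤ 1) (t : ℝ) :
    ‖kk κ σ t‖ ≤ 3 := by
  unfold kk
  by_cases ht : t ∈ Icc (-κ) (0 : ℝ)
  · rw [indicator_of_mem ht, norm_ex]
    obtain ⟨h1, h2⟩ := ht
    have h3 : -(σ * t) ≤ 1 := by nlinarith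
    calc Real.exp (-(σ * t)) ≤ Real.exp 1 := Real.exp_le_exp.2 h3
      _ ≤ 3 := Real.exp_one_lt_d9.le.trans (by norm_num)
  · rw [indicator_of_notMem ht, norm_zero]
    norm_num

theorem kk_zero {κ σ t : ℝ} (h : 0 < t) : kk κ σ t = 0 := by
  unfold kk
  rw [indicator_of_notMem]
  intro h'
  exact absurd h'.2 (not_le.2 h)

theorem kk_zero' {κ σ t : ℝ} (h : t < -κ) : kk κ σ t = 0 := by
  unfold kk
  rw [indicator_of_notMem]
  intro h'
  exact absurd h'.1 (not_le.2 h)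

theorem kk_conj (κ σ t : ℝ) : conj (kk κ σ t) = kk κ σ t := by
  unfold kk
  by_cases ht : t ∈ Icc (-κ) (0 : ℝ)
  · rw [indicator_of_mem ht, ← Complex.exp_conj]
    congr 1
    simp only [map_mul, map_neg, Complex.conj_ofReal]
  · rw [indicator_of_notMem ht, map_zero]

theorem kk1 (κ σ : ℝ) : Integrable (kk κ σ) := by
  unfold kk
  rw [integrable_indicator_iff measurableSet_Icc]
  refine ContinuousOn.integrableOn_compact isCompact_Icc ?_
  fun_prop

theorem kk2 (κ σ : ℝ) : MemLp (kk κ σ) 2 := by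
  have hm : AEStronglyMeasurable (kk κ σ) volume := (kk1 κ σ).1
  rw [memLp_two_iff_integrable_sq_norm hm]
  have h1 : (fun x => ‖kk κ σ x‖ ^ 2) =
      (Icc (-κ) (0 : ℝ)).indicator fun t => ‖cexp (-(σ : ℂ) * t)‖ ^ 2 := by
    funext t
    unfold kk
    by_cases ht : t ∈ Icc (-κ) (0 : ℝ)
    · rw [indicator_of_mem ht, indicator_of_mem ht]
    · rw [indicator_of_notMem ht, indicator_of_notMem ht, norm_zero]
      norm_num
  rw [h1, integrable_indicator_iff measurableSet_Icc]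
  refine ContinuousOn.integrableOn_compact isCompact_Icc ?_
  fun_prop

/-- the transform of `kk` -/
theorem four_kk {κ σ : ℝ} (hκ : 0 < κ) (hσ : 0 < σ) (y : ℝ) :
    𝓕 (kk κ σ) (y / (2 * Real.pi)) = (cexp ((κ : ℂ) * pt σ y) - 1) / pt σ y := by
  rw [Real.fourier_real_eq_integral_exp_smul]
  have h1 : ∀ t : ℝ, cexp (((-2 * Real.pi * t * (y / (2 * Real.pi)) : ℝ) : ℂ) * I) • kk κ σ t =
      (Icc (-κ) (0 : ℝ)).indicator (fun t : ℝ => cexp (-pt σ y * t)) t := by
    intro t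
    unfold kk
    by_cases ht : t ∈ Icc (-κ) (0 : ℝ)
    · rw [indicator_of_mem ht, indicator_of_mem ht, smul_eq_mul, ← Complex.exp_add]
      congr 1
      have h0 : (Real.pi : ℂ) ≠ 0 := by exact_mod_cast Real.pi_ne_zero
      unfold pt
      push_cast
      field_simp
      ring
    · rw [indicator_of_notMem ht, indicator_of_notMem ht, smul_zero]
  simp_rw [h1]
  rw [integral_indicator measurableSet_Icc, integral_Icc_eq_integral_Ioc,
    ← intervalIntegral.integral_of_le (by linarith)]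
  have h2 := pt_ne σ y hσ
  rw [integral_exp_mul_complex (neg_ne_zero.2 h2)]
  simp only [ofReal_zero, mul_zero, Complex.exp_zero, ofReal_neg, neg_mul_neg]
  rw [mul_comm (pt σ y)]
  field_simp
  ring

/-- the convolution of two functions supported in `t > 0` -/
theorem conv_zero {u v : ℝ → ℂ} (hu : ∀ t, t ≤ 0 → u t = 0) (hv : ∀ t, t ≤ 0 → v t = 0) {t : ℝ}
    (ht : t ≤ 0) : ∫ x, u x * v (t - x) = 0 := by
  have h : ∀ x, u x * v (t - x) = 0 := by
    intro x
    rcases le_or_gt x 0 with h | h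
    · rw [hu x h, zero_mul]
    · rw [hv (t - x) (by linarith), mul_zero]
  simp_rw [h]
  simp

/-- bound for an integral of a function supported in an interval -/
theorem int_bd {F : ℝ → ℂ} {a b M : ℝ} (hab : a ≤ b) (h : ∀ x, ‖F x‖ ≤ M)
    (h0 : ∀ x, x ∉ Icc a b → F x = 0) : ‖∫ x, F x‖ ≤ M * (b - a) := by
  have h1 : ∫ x, F x = ∫ x in a..b, F x := by
    rw [intervalIntegral.integral_of_le hab, ← integral_Icc_eq_integral_Ioc,
      ← integral_indicator measurableSet_Icc]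
    congr 1
    funext x
    by_cases hx : x ∈ Icc a b
    · rw [indicator_of_mem hx]
    · rw [indicator_of_notMem hx, h0 x hx]
  rw [h1]
  have h2 := intervalIntegral.norm_integral_le_of_norm_le_const (a := a) (b := b) (f := F) (C := M)
    (fun x _ => h x)
  rwa [abs_of_nonneg (by linarith)] at h2

theorem uu_zero {f : ℝ → ℂ} {σ t : ℝ} (h : t ≤ 0) : uu f σ t = 0 := by
  unfold uu
  rw [indicator_of_notMem]
  intro h'
  exact absurd (mem_Ioi.1 h') (not_lt.2 h)

theorem uu_le {f : ℝ → ℂ} {σ B : ℝ} (hσ : 0 ≤ σ) (hB : 0 ≤ B)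
    (hf : ∀ t, 0 < t → t ≤ 1 → ‖f t‖ ≤ B) {t : ℝ} (ht : t ≤ 1) : ‖uu f σ t‖ ≤ B := by
  rcases le_or_gt t 0 with h | h
  · rw [uu_zero h, norm_zero]; exact hB
  · unfold uu
    rw [indicator_of_mem (mem_Ioi.2 h), norm_mul, norm_ex]
    have h1 : Real.exp (-(σ * t)) ≤ 1 := by
      rw [Real.exp_le_one_iff]
      have := mul_nonneg hσ h.le
      linarith
    calc ‖f t‖ * Real.exp (-(σ * t)) ≤ B * 1 :=
          mul_le_mul (hf t h ht) h1 (Real.exp_nonneg _) hB
      _ = B := mul_one _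

end Pool.Agent.Q257.CP
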